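import Pool.Agent.Y217.PB.Stm

/-!
# Project PB, task A: glueing, unions, arcs
-/

set_option autoImplicit false

universe u

namespace Pool.Agent.Y852.PB

open Set Topology Metric
open Pool.Agent.Helper775.Surf Pool.Agent.Helper775.Clo
open Pool.Agent.Y217.PB

theorem glue : JGlue.{u} := by
  intro M _ _ _ X Y t s s' hX hY hs hs' hxy
  classical
  set O : Set M := interior {y | s y = s' y} with hO
  have hOsub : ∀ y ∈ O, s y = s' y := by
    intro y hy
    have h0 : y ∈ {y | s y = s' y} := interior_subset hy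
    exact h0
  have hXY : ∀ x ∈ X ∩ Y, x ∈ O := by
    intro x hx
    obtain ⟨W, hW, h1⟩ := hs x hx.1
    obtain ⟨W', hW', h1'⟩ := hs' x hx.2
    rw [hO, mem_interior_iff_mem_nhds]
    refine Filter.mem_of_superset (Filter.inter_mem hW hW') fun a ha => ?_
    have e1 := h1 a ha.1 x (mem_of_mem_nhds hW)
    have e2 := h1' a ha.2 x (mem_of_mem_nhds hW')
    rw [e1, hxy x hx] at e2
    exact add_right_cancel e2
  have hc1 : IsClosed (X \ O) := hX.sdiff isOpen_interior
  have hdis : Disjoint (X \ O) Y := by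
    rw [Set.disjoint_left]
    intro x hx hxY
    exact hx.2 (hXY x ⟨hx.1, hxY⟩)
  obtain ⟨U, V, hU, hV, hXU, hYV, hUV⟩ :=
    SeparatedNhds.of_isCompact_isCompact hc1.isCompact hY.isCompact hdis
  set σ : M → ZMod 2 := fun x => if x ∈ U then s x else s' x with hσ
  have hσO : ∀ y ∈ O, σ y = s y := by
    intro y hy
    by_cases hyU : y ∈ U
    · simp only [hσ, if_pos hyU]
    · simp only [hσ, if_neg hyU]
      exact (hOsub y hy).symm
  have hσU : ∀ y ∈ U, σ y = s y := by
    intro y hy
    simp only [hσ, if_pos hy]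
  have hσV : ∀ y ∈ V, σ y = s' y := by
    intro y hy
    have : y ∉ U := fun h => Set.disjoint_left.1 hUV h hy
    simp only [hσ, if_neg this]
  have hnear : ∀ x ∈ X, ∃ W ∈ 𝓝 x, ∀ a ∈ W, σ a = s a := by
    intro x hx
    by_cases hxO : x ∈ O
    · exact ⟨O, isOpen_interior.mem_nhds hxO, hσO⟩
    · exact ⟨U, hU.mem_nhds (hXU ⟨hx, hxO⟩), hσU⟩
  refine ⟨σ, ?_, ?_, fun x hx => hσV x (hYV hx)⟩
  · rintro x (hx | hx)
    · obtain ⟨W, hW, hW'⟩ := hnear x hx
      obtain ⟨W2, hW2, h2⟩ := hs x hx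
      refine ⟨W ∩ W2, Filter.inter_mem hW hW2, fun a ha b hb => ?_⟩
      rw [hW' a ha.1, hW' b hb.1]
      exact h2 a ha.2 b hb.2
    · obtain ⟨W2, hW2, h2⟩ := hs' x hx
      refine ⟨V ∩ W2, Filter.inter_mem (hV.mem_nhds (hYV hx)) hW2, fun a ha b hb => ?_⟩
      rw [hσV a ha.1, hσV b hb.1]
      exact h2 a ha.2 b hb.2
  · intro x hx
    obtain ⟨W, hW, hW'⟩ := hnear x hx
    exact hW' x (mem_of_mem_nhds hW)

theorem union_acyc : JUnion.{u} := by
  intro M _ _ _ X Y hX hY aX aY hXY t ht
  obtain ⟨s, hs⟩ := aX t (ht.mono subset_union_left)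
  obtain ⟨s', hs'⟩ := aY t (ht.mono subset_union_right)
  obtain ⟨k, hk⟩ := triv_uniq hXY (hs.mono inter_subset_left) (hs'.mono inter_subset_right)
  obtain ⟨σ, hσ, -, -⟩ := glue M X Y t s (fun x => s' x + k) hX hY hs (hs'.add_const k) (by
    intro x hx
    have h1 := hk x hx
    show s x = s' x + k
    rw [← h1]
    have e : s' x + s' x = 0 := CharTwo.add_self_eq_zero _
    calc s x = s x + (s' x + s' x) := by rw [e, add_zero]
      _ = s' x + (s x + s' x) := by ring)
  exact ⟨σ, hσ⟩

theorem coc_symm {M : Type u} {t : M → M → ZMod 2} {W : Set M}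
    (h : ∀ a ∈ W, ∀ b ∈ W, ∀ c ∈ W, t a b + t b c = t a c) :
    (∀ a ∈ W, t a a = 0) ∧ ∀ a ∈ W, ∀ b ∈ W, t a b = t b a := by
  have h0 : ∀ a ∈ W, t a a = 0 := fun a ha => by
    have := h a ha a ha a ha
    simpa using this
  refine ⟨h0, fun a ha b hb => ?_⟩
  have h1 := h a ha b hb a ha
  rw [h0 a ha] at h1
  exact CharTwo.add_eq_zero.1 h1

theorem intr : JIntr.{u} := by
  intro M _ _ _ _ X t s hX hc hs
  letI := TopologicalSpace.metrizableSpaceMetric M
  rcases X.eq_empty_or_nonempty with hemp | hne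
  · refine ⟨s, ?_, fun x _ => rfl⟩
    intro x hx
    rw [hemp] at hx
    exact hx.elim
  have hXc : IsCompact X := hX.isCompact
  choose z hzX hz using fun a : M => hXc.exists_infDist_eq_dist hne a
  have hself : ∀ x ∈ X, z x = x := by
    intro x hx
    have h1 : infDist x X = 0 := infDist_zero_of_mem hx
    rw [hz x] at h1
    exact (dist_eq_zero.1 h1).symm
  have htt : ∀ x ∈ X, t x x = 0 := by
    intro x hx
    obtain ⟨W, hW, h1⟩ := hc x hx
    exact (coc_symm h1).1 x (mem_of_mem_nhds hW)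
  refine ⟨fun a => s (z a) + t (z a) a, ?_, ?_⟩
  · intro x hx
    obtain ⟨W, hW, h1⟩ := hc x hx
    obtain ⟨W2, hW2, h2⟩ := hs x hx
    obtain ⟨r, hr, hball⟩ := Metric.mem_nhds_iff.1 (Filter.inter_mem hW hW2)
    refine ⟨ball x (r / 2), ball_mem_nhds x (by positivity), ?_⟩
    have hzb : ∀ a ∈ ball x (r / 2), z a ∈ ball x r := by
      intro a ha
      rw [mem_ball] at ha ⊢
      have h3 : dist a (z a) ≤ dist a x := by
        rw [← hz a]
        exact infDist_le_dist_of_mem hx
      calc dist (z a) x ≤ dist (z a) a + dist a x := dist_triangle _ _ _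
        _ = dist a (z a) + dist a x := by rw [dist_comm (z a) a]
        _ < r := by linarith
    have hab : ∀ a ∈ ball x (r / 2), a ∈ ball x r := fun a ha =>
      ball_subset_ball (by linarith) ha
    obtain ⟨-, hsy⟩ := coc_symm h1
    intro a ha b hb
    have a1 := (hball (hab a ha)).1
    have b1 := (hball (hab b hb)).1
    have a2 := (hball (hzb a ha)).1
    have b2 := (hball (hzb b hb)).1
    have e1 := h1 a a1 (z a) a2 b b1
    have e2 := h1 (z a) a2 (z b) b2 b b1
    have e3 := h2 (z a) ⟨(hball (hzb a ha)).2, hzX a⟩ (z b) ⟨(hball (hzb b hb)).2, hzX b⟩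
    have e4 := hsy a a1 (z a) a2
    show t a b = (s (z a) + t (z a) a) + (s (z b) + t (z b) b)
    rw [← e1, ← e2, e3, e4]
    ring
  · intro x hx
    show s (z x) + t (z x) x = s x
    rw [hself x hx, htt x hx, add_zero]

/-- the parametrization of an arc -/
theorem arc_par {M : Type u} [TopologicalSpace M] [CompactSpace M] [T2Space M] {A : Set M}
    (hA : IsClosed A) {g : M → ℝ} (hg : Continuous g) (hinj : InjOn g A)
    (him : g '' A = Icc 0 1) : ∃ h : ℝ → M, Continuous h ∧ (∀ τ, h τ ∈ A) ∧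
      (∀ a ∈ A, h (g a) = a) ∧ ∀ τ ∈ Icc (0 : ℝ) 1, g (h τ) = τ := by
  haveI : CompactSpace A := isCompact_iff_compactSpace.1 hA.isCompact
  have hmaps : ∀ a : A, g a ∈ Icc (0 : ℝ) 1 := fun a => by
    rw [← him]
    exact mem_image_of_mem g a.2
  let F : A → Icc (0 : ℝ) 1 := fun a => ⟨g a, hmaps a⟩
  have hF : Continuous F := (hg.comp continuous_subtype_val).subtype_mk _
  have hbij : Function.Bijective F := by
    constructor
    · intro a b hab
      have : g a = g b := congrArg Subtype.val hab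
      exact Subtype.ext (hinj a.2 b.2 this)
    · rintro ⟨τ, hτ⟩
      rw [← him] at hτ
      obtain ⟨a, ha, rfl⟩ := hτ
      exact ⟨⟨a, ha⟩, rfl⟩
  let e : A ≃ Icc (0 : ℝ) 1 := Equiv.ofBijective F hbij
  have he : Continuous e := hF
  let H := he.homeoOfEquivCompactToT2
  refine ⟨fun τ => (H.symm (projIcc 0 1 zero_le_one τ) : M), ?_, fun τ => Subtype.coe_prop _, ?_, ?_⟩
  · exact continuous_subtype_val.comp (H.symm.continuous.comp continuous_projIcc)
  · intro a ha
    have h1 : projIcc 0 1 zero_le_one (g a) = H ⟨a, ha⟩ := by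
      rw [projIcc_of_mem zero_le_one (hmaps ⟨a, ha⟩)]
      rfl
    show ((H.symm (projIcc 0 1 zero_le_one (g a)) : A) : M) = a
    rw [h1, H.symm_apply_apply]
  · intro τ hτ
    have h2 : H (H.symm (projIcc 0 1 zero_le_one τ)) = projIcc 0 1 zero_le_one τ :=
      H.apply_symm_apply _
    have h3 := congrArg Subtype.val h2
    have h4 : ((projIcc 0 1 zero_le_one τ : Icc (0 : ℝ) 1) : ℝ) = τ := by
      rw [projIcc_of_mem zero_le_one hτ]
    exact h3.trans h4

/-- arcs are acyclic -/
theorem arc_acyc {M : Type u} [TopologicalSpace M] [CompactSpace M] [T2Space M]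
    [TopologicalSpace.MetrizableSpace M] {A : Set M} (hA : IsClosed A) {g : M → ℝ}
    (hg : Continuous g) {h : ℝ → M} (hh : Continuous h) (hhA : ∀ τ, h τ ∈ A)
    (hhg : ∀ a ∈ A, h (g a) = a) : Acyc A := by
  intro t ht
  obtain ⟨s, hs⟩ := convex_null (T := univ) convex_univ (t := fun p q => t (h p.1) (h q.1)) (by
    intro p _
    obtain ⟨W, hW, h1⟩ := ht (h p.1) (hhA _)
    have hcont : Continuous fun q : ℝ × ℝ => h q.1 := hh.comp continuous_fst
    refine ⟨(fun q : ℝ × ℝ => h q.1) ⁻¹' W, ?_, fun a ha b hb c hc => h1 _ ha _ hb _ hc⟩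
    rw [nhdsWithin_univ]
    exact hcont.continuousAt.preimage_mem_nhds hW)
  obtain ⟨σ, hσ, -⟩ := intr M A t (fun a => s (g a, 0)) hA ht (by
    intro x hx
    obtain ⟨W, hW, h1⟩ := hs (g x, 0) (mem_univ _)
    rw [nhdsWithin_univ] at hW
    have hcont : Continuous fun a : M => ((g a, 0) : ℝ × ℝ) := hg.prodMk continuous_const
    refine ⟨(fun a : M => ((g a, 0) : ℝ × ℝ)) ⁻¹' W, hcont.continuousAt.preimage_mem_nhds hW,
      fun a ha b hb => ?_⟩
    have h2 := h1 _ ha.1 _ hb.1
    simp only at h2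
    rw [hhg a ha.2, hhg b hb.2] at h2
    exact h2)
  exact ⟨σ, hσ⟩

theorem arc : JArc.{u} := by
  intro M _ _ _ _ A p q hA
  obtain ⟨hcl, hp, hq, g, hg, hinj, him, gp, gq⟩ := hA
  obtain ⟨h, hh, hhA, hhg, hgh⟩ := arc_par hcl hg hinj him
  have hmaps : ∀ a ∈ A, g a ∈ Icc (0 : ℝ) 1 := fun a ha => by
    rw [← him]
    exact mem_image_of_mem g ha
  have hAim : A = h '' Icc 0 1 := by
    ext a
    constructor
    · intro ha
      exact ⟨g a, hmaps a ha, hhg a ha⟩
    · rintro ⟨τ, -, rfl⟩
      exact hhA τ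
  have hAim' : A \ {p, q} = h '' Ioo 0 1 := by
    ext a
    constructor
    · rintro ⟨ha, hn⟩
      simp only [mem_insert_iff, mem_singleton_iff, not_or] at hn
      obtain ⟨h1, h2⟩ := hmaps a ha
      refine ⟨g a, ⟨lt_of_le_of_ne h1 ?_, lt_of_le_of_ne h2 ?_⟩, hhg a ha⟩
      · intro h3
        exact hn.1 (hinj ha hp (by rw [← h3, gp]))
      · intro h3
        exact hn.2 (hinj ha hq (by rw [h3, gq]))
    · rintro ⟨τ, hτ, rfl⟩
      refine ⟨hhA τ, ?_⟩
      simp only [mem_insert_iff, mem_singleton_iff, not_or]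
      have h4 := hgh τ ⟨hτ.1.le, hτ.2.le⟩
      constructor
      · intro h5
        rw [h5, gp] at h4
        exact hτ.1.ne h4
      · intro h5
        rw [h5, gq] at h4
        exact hτ.2.ne h4.symm
  refine ⟨?_, ?_, arc_acyc hcl hg hh hhA hhg, ?_, ?_, ?_⟩
  · rintro rfl
    rw [gp] at gq
    exact zero_ne_one gq
  · rw [hAim]
    exact isPreconnected_Icc.image h hh.continuousOn
  · rw [hAim']
    exact isPreconnected_Ioo.image h hh.continuousOn
  · rw [hAim', hAim, ← closure_Ioo (zero_ne_one' ℝ)]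
    exact image_closure_subset_closure_image hh
  · intro m hm hmp hmq
    obtain ⟨m0, m1⟩ := hmaps m hm
    have hμ0 : 0 < g m := lt_of_le_of_ne m0 fun h3 => hmp (hinj hm hp (by rw [← h3, gp]))
    have hμ1 : g m < 1 := lt_of_le_of_ne m1 fun h3 => hmq (hinj hm hq (by rw [h3, gq]))
    have hmI : m ∈ g ⁻¹' Iic (g m) := le_refl (g m)
    have hmI' : m ∈ g ⁻¹' Ici (g m) := le_refl (g m)
    refine ⟨A ∩ g ⁻¹' Iic (g m), A ∩ g ⁻¹' Ici (g m), ?_, ?_, ?_, ?_⟩
    · refine ⟨hcl.inter (isClosed_Iic.preimage hg), ⟨hp, ?_⟩, ⟨hm, hmI⟩,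
        fun a => g a / g m, hg.div_const _, ?_, ?_, ?_, ?_⟩
      · show g p ≤ g m
        rw [gp]
        exact m0
      · intro a ha b hb hab
        have : g a = g b := by
          simp only at hab
          rwa [div_left_inj' hμ0.ne'] at hab
        exact hinj ha.1 hb.1 this
      · ext τ
        constructor
        · rintro ⟨a, ha, rfl⟩
          exact ⟨div_nonneg (hmaps a ha.1).1 m0, (div_le_one hμ0).2 ha.2⟩
        · intro hτ
          have hτm : τ * g m ∈ Icc (0 : ℝ) 1 :=
            ⟨mul_nonneg hτ.1 m0, mul_le_one₀ hτ.2 m0 m1⟩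
          refine ⟨h (τ * g m), ⟨hhA _, ?_⟩, ?_⟩
          · show g (h (τ * g m)) ≤ g m
            rw [hgh _ hτm]
            exact mul_le_of_le_one_left m0 hτ.2
          · show g (h (τ * g m)) / g m = τ
            rw [hgh _ hτm, mul_div_cancel_right₀ _ hμ0.ne']
      · show g p / g m = 0
        rw [gp, zero_div]
      · exact div_self hμ0.ne'
    · have h1μ : 0 < 1 - g m := by linarith
      refine ⟨hcl.inter (isClosed_Ici.preimage hg), ⟨hm, hmI'⟩, ⟨hq, ?_⟩,
        fun a => (g a - g m) / (1 - g m), (hg.sub continuous_const).div_const _, ?_, ?_, ?_, ?_⟩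
      · show g m ≤ g q
        rw [gq]
        exact m1
      · intro a ha b hb hab
        have : g a = g b := by
          simp only at hab
          rw [div_left_inj' h1μ.ne'] at hab
          linarith
        exact hinj ha.1 hb.1 this
      · ext τ
        constructor
        · rintro ⟨a, ha, rfl⟩
          have h2 : g m ≤ g a := ha.2
          have h3 := (hmaps a ha.1).2
          exact ⟨div_nonneg (by linarith) h1μ.le, (div_le_one h1μ).2 (by linarith)⟩
        · intro hτ
          have hτ0 := hτ.1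
          have hτ1 := hτ.2
          have hτm : g m + τ * (1 - g m) ∈ Icc (0 : ℝ) 1 := by
            constructor
            · positivity
            · nlinarith
          refine ⟨h (g m + τ * (1 - g m)), ⟨hhA _, ?_⟩, ?_⟩
          · show g m ≤ g (h (g m + τ * (1 - g m)))
            rw [hgh _ hτm]
            nlinarith
          · show (g (h (g m + τ * (1 - g m))) - g m) / (1 - g m) = τ
            rw [hgh _ hτm, add_sub_cancel_left, mul_div_cancel_right₀ _ h1μ.ne']
      · show (g m - g m) / (1 - g m) = 0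
        rw [sub_self, zero_div]
      · show (g q - g m) / (1 - g m) = 1
        rw [gq]
        exact div_self h1μ.ne'
    · rw [← inter_union_distrib_left]
      apply inter_eq_left.2
      intro a _
      rcases le_total (g a) (g m) with h1 | h1
      · exact Or.inl h1
      · exact Or.inr h1
    · ext a
      constructor
      · rintro ⟨⟨ha, h1⟩, -, h2⟩
        have h3 : g a = g m := le_antisymm h1 h2
        exact hinj ha hm h3
      · rintro rfl
        exact ⟨⟨hm, hmI⟩, hm, hmI'⟩

end Pool.Agent.Y852.PB
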